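import Pool.Agent.Work.MP_54723a_co.TOP.Top

/-!
# The leaf lemma and labelled binary trees (note 8013) for `l = 3`

* `card_le_of_min` : the one-anchored theorem for `l = 2`: a set without 2-flash whose first vertex
  starts no rainbow path with more than `r` edges has at most `2 ^ r` vertices.
* `card_leaf` : the leaf lemma. Only the first vertex of `U` needs a palette.
* `LT c V R U N k` : a labelled binary tree below the node `U` (`N` are the dead colours, `k` counts
  the other turns); `LT.card_le` : `|U| ≤ 2 ^ k * 3 ^ (R - |N| - k)`.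
* `Pal1 c V R` : a set `Q` of at most `R` colours and a partition of `V` into classes indexed by
  subsets of `Q`, where only the first vertex of a class needs a palette; `card_le_of_pal1`.
* `S08791_of_LT`, `S08791_of_Pal1` : the frozen statement S08791 from each of them.
-/

set_option autoImplicit false

namespace FlashRainbow

open Classical

variable {c : ℕ → ℕ → ℕ} {U V T : Finset ℕ} {l R b g : ℕ} {lam : ℕ → ℕ} {lev : ℕ → ℕ → ℕ}

/-! ## One anchor, `l = 2` -/

theorem ne_of_noMP_two (hno : ∀ γ v, ¬ MP c U γ v 2) {a d e : ℕ} (ha : a ∈ U) (hd : d ∈ U)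
    (he : e ∈ U) (had : a < d) (hde : d < e) : c d e ≠ c a d := fun heq =>
  hno _ _ (MP.step (MP.step (MP.single ha) hd had rfl) he hde heq)

/-- the one-anchored theorem for `l = 2`, anchored at the first vertex -/
theorem card_le_of_min {r x : ℕ} (hno : ∀ γ v, ¬ MP c U γ v 2) (hx : x ∈ U)
    (hmin : ∀ v ∈ U, x ≤ v) (hr : ∀ D, RS c U x D → D.card ≤ r) : U.card ≤ 2 ^ r := by
  have hsub : U.erase x ⊆ U := Finset.erase_subset _ _
  have hlt : ∀ v ∈ U.erase x, x < v := by
    intro v hv
    have h1 := hmin v (hsub hv)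
    have h2 := Finset.ne_of_mem_erase hv
    omega
  have h := TopAt_two (b := r) c (U.erase x) (fun v => c x v)
    (fun γ v hm => hno γ v (hm.mono hsub)) ⟨?_, ?_⟩
  · have h1 := Finset.card_erase_add_one hx
    have h2 : (2 - 1 : ℕ) ^ r = 1 := by simp
    rw [h2] at h
    omega
  · intro u hu v hv huv
    exact ne_of_noMP_two hno hx (hsub hu) (hsub hv) (hlt u hu) huv
  · intro v hv D hD hnot
    have h1 := hr _ (RS.step (hD.mono hsub) hx (hlt v hv) hnot)
    rw [Finset.card_insert_of_notMem hnot] at h1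
    omega

/-! ## The leaf lemma -/

/-- the inner induction of the leaf lemma: `T` is the set without its root `u` -/
theorem card_leaf_aux (hR : Rk c V R) {u : ℕ} {P : Finset ℕ} (hP : RP c V u P) (huV : u ∈ V) :
    ∀ (s : ℕ) (Q T : Finset ℕ), Q ⊆ P → (P \ Q).card = s → T ⊆ V → (∀ v ∈ T, u < v) →
      (∀ v ∈ T, c u v ∉ P) → (∀ γ v, ¬ MP c (insert u T) γ v 2) →
      (∀ a ∈ T, ∀ d ∈ T, a < d → c a d ∉ Q) → T.card + 2 ^ s ≤ 2 ^ (R - P.card + s) := by
  intro s
  induction s with
  | zero =>
    intro Q T hQ hs hTV hlt hroot hno hfree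
    have hPQ : P ⊆ Q := Finset.sdiff_eq_empty_iff_subset.mp (Finset.card_eq_zero.mp hs)
    have huT : u ∉ T := fun h => lt_irrefl _ (hlt u h)
    have h1 : (insert u T).card ≤ 2 ^ (R - P.card) := by
      refine card_le_of_min hno (Finset.mem_insert_self _ _) ?_ ?_
      · intro v hv
        rcases Finset.mem_insert.mp hv with rfl | hv
        · exact le_rfl
        · exact (hlt v hv).le
      · intro D hD
        have hsub : insert u T ⊆ V := Finset.insert_subset huV hTV
        have hfree' : ∀ γ ∈ P, ∀ a ∈ insert u T, ∀ d ∈ insert u T, a < d → c a d ≠ γ := by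
          intro γ hγ a ha d hd had heq
          rcases Finset.mem_insert.mp ha with ha1 | ha1
          · rcases Finset.mem_insert.mp hd with hd1 | hd1
            · omega
            · exact hroot d hd1 (by rw [← ha1, heq]; exact hγ)
          · rcases Finset.mem_insert.mp hd with hd1 | hd1
            · have h7 := hlt a ha1
              omega
            · exact hfree a ha1 d hd1 had (hPQ (by rw [heq]; exact hγ))
        have hdis : Disjoint D P := by
          rw [Finset.disjoint_right]
          intro γ hγ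
          exact hD.notMem_of_free (hfree' γ hγ)
        obtain ⟨y, hy⟩ := hD.join hsub P hP hdis
        have h2 := hR _ _ hy
        rw [Finset.card_union_of_disjoint hdis.symm] at h2
        omega
    rw [Finset.card_insert_of_notMem huT] at h1
    simpa using h1
  | succ s ih =>
    intro Q T hQ hs hTV hlt hroot hno hfree
    obtain ⟨g, hg⟩ : (P \ Q).Nonempty := by
      rw [← Finset.card_pos]; omega
    obtain ⟨hgP, hgQ⟩ := Finset.mem_sdiff.mp hg
    set T₁ := T.filter (fun v => ∃ y ∈ T, v < y ∧ c v y = g) with hT₁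
    set T₂ := T.filter (fun v => ¬ ∃ y ∈ T, v < y ∧ c v y = g) with hT₂
    have h₁ : T₁ ⊆ T := Finset.filter_subset _ _
    have h₂ : T₂ ⊆ T := Finset.filter_subset _ _
    have hcard : T₁.card + T₂.card = T.card := by
      rw [hT₁, hT₂]
      exact Finset.card_filter_add_card_filter_not _
    have hQ' : insert g Q ⊆ P := Finset.insert_subset hgP hQ
    have hs' : (P \ insert g Q).card = s := by
      have h3 : P \ insert g Q = (P \ Q).erase g := by
        ext a
        simp only [Finset.mem_sdiff, Finset.mem_insert, Finset.mem_erase, not_or]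
        tauto
      rw [h3, Finset.card_erase_of_mem hg, hs]
      omega
    have key : ∀ T' ⊆ T, (∀ a ∈ T', ∀ d ∈ T', a < d → c a d ≠ g) →
        T'.card + 2 ^ s ≤ 2 ^ (R - P.card + s) := by
      intro T' hT' hg'
      refine ih (insert g Q) T' hQ' hs' (hT'.trans hTV) (fun v hv => hlt v (hT' hv))
        (fun v hv => hroot v (hT' hv))
        (fun γ v hm => hno γ v (hm.mono (Finset.insert_subset_insert _ hT'))) ?_
      intro a ha d hd had hmem
      rcases Finset.mem_insert.mp hmem with h | h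
      · exact hg' a ha d hd had h
      · exact hfree a (hT' ha) d (hT' hd) had h
    have k1 := key T₁ h₁ (by
      intro a ha d hd had heq
      obtain ⟨hdT, y, hy, hdy, hcdy⟩ := Finset.mem_filter.mp hd
      exact ne_of_noMP_two hno (Finset.mem_insert_of_mem (h₁ ha)) (Finset.mem_insert_of_mem hdT)
        (Finset.mem_insert_of_mem hy) had hdy (hcdy.trans heq.symm))
    have k2 := key T₂ h₂ (by
      intro a ha d hd had heq
      exact (Finset.mem_filter.mp ha).2 ⟨d, h₂ hd, had, heq⟩)
    have e1 : 2 ^ (s + 1) = 2 ^ s + 2 ^ s := by rw [pow_succ]; ring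
    have e2 : 2 ^ (R - P.card + (s + 1)) = 2 ^ (R - P.card + s) + 2 ^ (R - P.card + s) := by
      rw [← Nat.add_assoc, pow_succ]; ring
    rw [e1, e2]
    omega

/-- THE LEAF LEMMA (helper5): `U ⊆ V` without 2-flash and without an arc of a colour in `N`; only
the first vertex `u` of `U` needs a palette `P ⊇ N`, and the arcs from `u` into `U` avoid `P`. -/
theorem card_leaf (hR : Rk c V R) (hUV : U ⊆ V) (hno : ∀ γ v, ¬ MP c U γ v 2) {N P : Finset ℕ}
    (hfree : ∀ a ∈ U, ∀ d ∈ U, a < d → c a d ∉ N) {u : ℕ} (hu : u ∈ U) (hmin : ∀ v ∈ U, u ≤ v)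
    (hP : RP c V u P) (hNP : N ⊆ P) (hroot : ∀ v ∈ U, u < v → c u v ∉ P) :
    U.card ≤ 2 ^ (R - N.card) := by
  have hsub : U.erase u ⊆ U := Finset.erase_subset _ _
  have hlt : ∀ v ∈ U.erase u, u < v := by
    intro v hv
    have h1 := hmin v (hsub hv)
    have h2 := Finset.ne_of_mem_erase hv
    omega
  have h := card_leaf_aux hR hP (hUV hu) (P \ N).card N (U.erase u) hNP rfl (hsub.trans hUV) hlt
    (fun v hv => hroot v (hsub hv) (hlt v hv))
    (fun γ v hm => hno γ v (hm.mono (Finset.insert_subset hu hsub)))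
    (fun a ha d hd => hfree a (hsub ha) d (hsub hd))
  have h1 := Finset.card_erase_add_one hu
  have h2 : (P \ N).card = P.card - N.card := Finset.card_sdiff_of_subset hNP
  have h3 : N.card ≤ P.card := Finset.card_le_card hNP
  have h4 := hR _ _ hP
  have h5 : R - P.card + (P \ N).card = R - N.card := by omega
  have h6 : 1 ≤ 2 ^ (P \ N).card := Nat.one_le_two_pow
  rw [h5] at h
  omega

/-! ## Labelled binary trees -/

/-- A labelled binary tree below the node `U`: `N` is the set of dead colours, `k` counts the turns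
into `Y`. `NO` has no arc of colour `g`; nothing is asked of `Y`. -/
inductive LT (c : ℕ → ℕ → ℕ) (V : Finset ℕ) (R : ℕ) : Finset ℕ → Finset ℕ → ℕ → Prop
  | small {U N : Finset ℕ} {k : ℕ} : N.card + k ≤ R → U.card ≤ 1 → LT c V R U N k
  | leaf {U N P : Finset ℕ} {k u : ℕ} : N.card + k ≤ R → (∀ γ v, ¬ MP c U γ v 2) → u ∈ U →
      (∀ v ∈ U, u ≤ v) → RP c V u P → N ⊆ P → (∀ v ∈ U, u < v → c u v ∉ P) → LT c V R U N k
  | node {U Y NO N : Finset ℕ} {k g : ℕ} : U = Y ∪ NO → g ∉ N →
      (∀ a ∈ NO, ∀ d ∈ NO, a < d → c a d ≠ g) → LT c V R Y N (k + 1) →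
      LT c V R NO (insert g N) k → LT c V R U N k

theorem LT.depth {U N : Finset ℕ} {k : ℕ} (h : LT c V R U N k) : N.card + k ≤ R := by
  induction h with
  | small h _ => exact h
  | leaf h _ _ _ _ _ _ => exact h
  | node _ _ _ _ _ ih1 _ => omega

theorem LT.card_le {U N : Finset ℕ} {k : ℕ} (hR : Rk c V R) (h : LT c V R U N k) (hUV : U ⊆ V)
    (hfree : ∀ a ∈ U, ∀ d ∈ U, a < d → c a d ∉ N) :
    U.card ≤ 2 ^ k * 3 ^ (R - N.card - k) := by
  induction h with
  | small _ h1 => exact h1.trans (Nat.one_le_iff_ne_zero.mpr (by positivity))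
  | @leaf U N P k u hd hno hu hmin hP hNP hroot =>
    refine (card_leaf hR hUV hno hfree hu hmin hP hNP hroot).trans ?_
    calc 2 ^ (R - N.card) = 2 ^ k * 2 ^ (R - N.card - k) := by
          rw [← pow_add]; congr 1; omega
      _ ≤ 2 ^ k * 3 ^ (R - N.card - k) :=
          Nat.mul_le_mul_left _ (Nat.pow_le_pow_left (by norm_num) _)
  | @node U Y NO N k g hU hg hNO hY hN ih1 ih2 =>
    have hYU : Y ⊆ U := by rw [hU]; exact Finset.subset_union_left
    have hNU : NO ⊆ U := by rw [hU]; exact Finset.subset_union_right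
    have h1 := ih1 (hYU.trans hUV) (fun a ha d hd => hfree a (hYU ha) d (hYU hd))
    have h2 := ih2 (hNU.trans hUV) (by
      intro a ha d hd had hmem
      rcases Finset.mem_insert.mp hmem with h | h
      · exact hNO a ha d hd had h
      · exact hfree a (hNU ha) d (hNU hd) had h)
    have h3 := hY.depth
    rw [Finset.card_insert_of_notMem hg] at h2
    have h4 : U.card ≤ Y.card + NO.card := by rw [hU]; exact Finset.card_union_le _ _
    obtain ⟨e, he⟩ : ∃ e, R - N.card - k = e + 1 := ⟨R - N.card - k - 1, by omega⟩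
    have h5 : R - N.card - (k + 1) = e := by omega
    have h6 : R - (N.card + 1) - k = e := by omega
    rw [h5] at h1
    rw [h6] at h2
    rw [he]
    calc U.card ≤ 2 ^ (k + 1) * 3 ^ e + 2 ^ k * 3 ^ e := by omega
      _ = 2 ^ k * 3 ^ (e + 1) := by rw [pow_succ, pow_succ]; ring

theorem card_le_of_LT (hR : Rk c V R) (h : LT c V R V ∅ 0) : V.card ≤ 3 ^ R := by
  have h1 := h.card_le hR (Finset.Subset.refl _) (fun _ _ _ _ _ => Finset.notMem_empty _)
  simpa using h1

/-! ## One palette and one map, only the first vertices of the classes need palettes -/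

/-- the statement (PAL1) of note 8013: only the first vertex of a class needs a palette -/
def Pal1 (c : ℕ → ℕ → ℕ) (V : Finset ℕ) (R : ℕ) : Prop :=
  ∃ (Q : Finset ℕ) (N : ℕ → Finset ℕ), Q.card ≤ R ∧ (∀ v ∈ V, N v ⊆ Q) ∧
    (∀ u ∈ V, ∀ v ∈ V, u < v → N u = N v → c u v ∉ N v) ∧
    (∀ S γ v, ¬ MP c (V.filter fun u => N u = S) γ v 2) ∧
    ∀ u ∈ V, (∀ v ∈ V, N v = N u → u ≤ v) →
      ∃ P, RP c V u P ∧ N u ⊆ P ∧ ∀ v ∈ V, N v = N u → u < v → c u v ∉ P

theorem card_le_of_pal1 (hR : Rk c V R) (hP : Pal1 c V R) : V.card ≤ 3 ^ R := by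
  obtain ⟨Q, N, hQ, hN, hfree, hmono, hroot⟩ := hP
  have hclass : ∀ S ∈ Q.powerset, (V.filter fun u => N u = S).card ≤ 2 ^ (R - S.card) := by
    intro S _
    rcases (V.filter fun u => N u = S).eq_empty_or_nonempty with h0 | hne
    · rw [h0]; simp
    · set u := (V.filter fun u => N u = S).min' hne with hu
      have huW : u ∈ V.filter fun u => N u = S := Finset.min'_mem _ hne
      obtain ⟨huV, huS⟩ := Finset.mem_filter.mp huW
      have hmin : ∀ v ∈ V.filter fun u => N u = S, u ≤ v := fun v hv => Finset.min'_le _ v hv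
      obtain ⟨P, hP, hNP, hc⟩ := hroot u huV (fun v hv hvu =>
        hmin v (Finset.mem_filter.mpr ⟨hv, hvu.trans huS⟩))
      refine card_leaf hR (Finset.filter_subset _ _) (hmono S) ?_ huW hmin hP (huS ▸ hNP) ?_
      · intro a ha d hd had hmem
        obtain ⟨haV, haS⟩ := Finset.mem_filter.mp ha
        obtain ⟨hdV, hdS⟩ := Finset.mem_filter.mp hd
        refine hfree a haV d hdV had (haS.trans hdS.symm) ?_
        rw [hdS]
        exact hmem
      · intro v hv huv
        obtain ⟨hvV, hvS⟩ := Finset.mem_filter.mp hv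
        exact hc v hvV (hvS.trans huS.symm) huv
  have hmaps : ∀ v ∈ V, N v ∈ Q.powerset := fun v hv => Finset.mem_powerset.mpr (hN v hv)
  rw [Finset.card_eq_sum_card_fiberwise hmaps]
  calc ∑ S ∈ Q.powerset, (V.filter fun u => N u = S).card
      ≤ ∑ S ∈ Q.powerset, 2 ^ (R - S.card) := Finset.sum_le_sum hclass
    _ = ∑ S ∈ Q.powerset, 2 ^ (R - Q.card) * (1 ^ S.card * 2 ^ (Q.card - S.card)) := by
        refine Finset.sum_congr rfl fun S hS => ?_
        have h1 := Finset.card_le_card (Finset.mem_powerset.mp hS)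
        rw [one_pow, one_mul, ← pow_add]
        congr 1
        omega
    _ = 2 ^ (R - Q.card) * (1 + 2) ^ Q.card := by
        rw [← Finset.mul_sum, Finset.sum_pow_mul_eq_add_pow]
    _ ≤ 3 ^ (R - Q.card) * 3 ^ Q.card :=
        Nat.mul_le_mul (Nat.pow_le_pow_left (by norm_num) _) (le_of_eq (by norm_num))
    _ = 3 ^ R := by
        rw [← pow_add, Nat.sub_add_cancel hQ]

/-! ## The frozen statement -/

/-- the frozen statement S08791 from labelled binary trees -/
theorem S08791_of_LT (h : ∀ (c : ℕ → ℕ → ℕ) (V : Finset ℕ) (R : ℕ), (∀ γ v, ¬ MP c V γ v 3) →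
      Rk c V R → LT c V R V ∅ 0) :
    ∀ k : ℕ, 1 ≤ k →
      (∃ c : Fin (3 ^ (k - 1)) → Fin (3 ^ (k - 1)) → ℕ,
          (¬ ∃ x : Fin (3 + 1) → Fin (3 ^ (k - 1)), StrictMono x ∧
              ∃ col : ℕ, ∀ i : Fin 3, c (x i.castSucc) (x i.succ) = col) ∧
          (¬ ∃ y : Fin (k + 1) → Fin (3 ^ (k - 1)), StrictMono y ∧
              Function.Injective (fun i : Fin k => c (y i.castSucc) (y i.succ)))) ∧
      (∀ c : Fin (3 ^ (k - 1) + 1) → Fin (3 ^ (k - 1) + 1) → ℕ,
          (∃ x : Fin (3 + 1) → Fin (3 ^ (k - 1) + 1), StrictMono x ∧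
              ∃ col : ℕ, ∀ i : Fin 3, c (x i.castSucc) (x i.succ) = col) ∨
          (∃ y : Fin (k + 1) → Fin (3 ^ (k - 1) + 1), StrictMono y ∧
              Function.Injective (fun i : Fin k => c (y i.castSucc) (y i.succ)))) :=
  S08791_of_Bnd fun R c V _ hL hR => card_le_of_LT hR (h c V R hL.noMP hR)

/-- the frozen statement S08791 from (PAL1) -/
theorem S08791_of_Pal1 (h : ∀ (c : ℕ → ℕ → ℕ) (V : Finset ℕ) (R : ℕ), (∀ γ v, ¬ MP c V γ v 3) →
      Rk c V R → Pal1 c V R) :
    ∀ k : ℕ, 1 ≤ k →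
      (∃ c : Fin (3 ^ (k - 1)) → Fin (3 ^ (k - 1)) → ℕ,
          (¬ ∃ x : Fin (3 + 1) → Fin (3 ^ (k - 1)), StrictMono x ∧
              ∃ col : ℕ, ∀ i : Fin 3, c (x i.castSucc) (x i.succ) = col) ∧
          (¬ ∃ y : Fin (k + 1) → Fin (3 ^ (k - 1)), StrictMono y ∧
              Function.Injective (fun i : Fin k => c (y i.castSucc) (y i.succ)))) ∧
      (∀ c : Fin (3 ^ (k - 1) + 1) → Fin (3 ^ (k - 1) + 1) → ℕ,
          (∃ x : Fin (3 + 1) → Fin (3 ^ (k - 1) + 1), StrictMono x ∧
              ∃ col : ℕ, ∀ i : Fin 3, c (x i.castSucc) (x i.succ) = col) ∨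
          (∃ y : Fin (k + 1) → Fin (3 ^ (k - 1) + 1), StrictMono y ∧
              Function.Injective (fun i : Fin k => c (y i.castSucc) (y i.succ)))) :=
  S08791_of_Bnd fun R c V _ hL hR => card_le_of_pal1 hR (h c V R hL.noMP hR)

end FlashRainbow
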